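import Mathlib

namespace Pool.Agent.Results.MP_1bbe3d_pr.NoMLE

open Real Set

/-- the log-likelihood of the step-stress model -/
noncomputable def ll (n n₁ n₂ : ℕ) (τ η : ℝ) (t : Fin (n₁ + n₂) → ℝ) (α θ β : ℝ) : ℝ :=
  let u : ℝ → ℝ := fun s => τ + β * (s - τ)
  let v : Fin (n₁ + n₂) → ℝ := fun i => if (i : ℕ) < n₁ then t i else u (t i)
  ((n₁ : ℝ) + n₂) * log α + n₂ * log β - ((n₁ : ℝ) + n₂) * α * log θ + (α - 1) * ∑ i, log (v i) -
    θ ^ (-α) * (∑ i, v i ^ α + ((n : ℝ) - (n₁ + n₂)) * u η ^ α)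

noncomputable def g (a b β : ℝ) : ℝ :=
  3 * log a + 3 * log β - 3 * b +
    (a - 1) * (log (1 + β * 9) + log (1 + β * 10) + log (1 + β * 15)) -
    (exp (a * log (1 + β * 9) - b) + exp (a * log (1 + β * 10) - b) +
      exp (a * log (1 + β * 15) - b))

theorem ll_eq (a b β : ℝ) (ha : 0 < a) (hβ : 0 < β) :
    ll 3 0 3 1 20 ![10, 11, 16] a (exp (b / a)) β = g a b β := by
  have e : ∀ c : ℝ, 0 < c → exp (b / a) ^ (-a) * (1 + β * c) ^ a =
      exp (a * log (1 + β * c) - b) := fun c hc => by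
    rw [← exp_mul, rpow_def_of_pos (by positivity), ← exp_add]
    congr 1
    field_simp
    ring
  unfold ll g
  simp only [Fin.sum_univ_succ, Finset.univ_eq_empty, Finset.sum_empty, not_lt_zero, if_false,
    Matrix.cons_val_zero, Matrix.cons_val_succ, log_exp]
  rw [← e 9 (by norm_num), ← e 10 (by norm_num), ← e 15 (by norm_num)]
  norm_num
  field_simp
  ring

theorem logb (p q : ℝ) (hp : 0 < p) (h : p ≤ q) : 2 * (q - p) / (q + p) ≤ log q - log p := by
  have h1 := le_log_one_add_of_nonneg (x := (q - p) / p) (div_nonneg (by linarith) hp.le)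
  rw [show 1 + (q - p) / p = q / p by field_simp; ring, log_div (by linarith) hp.ne'] at h1
  refine le_trans (le_of_eq ?_) h1
  have : 0 < q + p := by linarith
  rw [show (q - p) / p + 2 = (q + p) / p by field_simp; ring]
  field_simp

theorem no_max (a b β : ℝ) (ha : 0 < a) (hβ : 0 < β)
    (h : ∀ a' b' β', 0 < a' → 0 < β' → g a' b' β' ≤ g a b β) : False := by
  obtain ⟨p, hp⟩ : ∃ p, p = 1 + β * 9 := ⟨_, rfl⟩
  obtain ⟨q, hq⟩ : ∃ p, p = 1 + β * 10 := ⟨_, rfl⟩
  obtain ⟨r, hr⟩ : ∃ p, p = 1 + β * 15 := ⟨_, rfl⟩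
  have hp0 : 0 < p := by rw [hp]; positivity
  have hq0 : 0 < q := by rw [hq]; positivity
  have hr0 : 0 < r := by rw [hr]; positivity
  obtain ⟨x, hx⟩ : ∃ x, x = exp (a * log p - b) := ⟨_, rfl⟩
  obtain ⟨y, hy⟩ : ∃ x, x = exp (a * log q - b) := ⟨_, rfl⟩
  obtain ⟨z, hz⟩ : ∃ x, x = exp (a * log r - b) := ⟨_, rfl⟩
  have d1 : -3 + (x + y + z) = 0 := by
    have hm : IsLocalMax (fun s => g a s β) b := Filter.Eventually.of_forall fun s => h a s β ha hβ
    refine hm.hasDerivAt_eq_zero ?_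
    have e : ∀ c : ℝ, HasDerivAt (fun s => exp (c - s)) (exp (c - b) * (-1)) b := fun c =>
      ((hasDerivAt_id b).const_sub c).exp
    unfold g
    refine (((((hasDerivAt_id b).const_mul 3).const_sub _).add_const _).sub
      (((e _).add (e _)).add (e _))).congr_deriv ?_
    rw [hx, hy, hz, hp, hq, hr]
    ring
  have d2 : 3 * a⁻¹ + (log p + log q + log r) - (x * log p + y * log q + z * log r) = 0 := by
    have hm : IsLocalMax (fun s => g s b β) a :=
      (lt_mem_nhds ha).mono fun s hs => h s b β hs hβ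
    refine hm.hasDerivAt_eq_zero ?_
    have e : ∀ c : ℝ, HasDerivAt (fun s => exp (s * c - b)) (exp (a * c - b) * (1 * c)) a :=
      fun c => (((hasDerivAt_id a).mul_const c).sub_const b).exp
    unfold g
    refine (((((((hasDerivAt_log ha.ne').const_mul 3).add_const _).sub_const _).add
      (((hasDerivAt_id a).sub_const 1).mul_const _))).sub
      (((e _).add (e _)).add (e _))).congr_deriv ?_
    rw [hx, hy, hz, hp, hq, hr]
    ring
  have d3 : 3 * β⁻¹ + (a - 1) * (9 / p + 10 / q + 15 / r) -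
      (x * (a * (9 / p)) + y * (a * (10 / q)) + z * (a * (15 / r))) = 0 := by
    have hm : IsLocalMax (fun s => g a b s) β :=
      (lt_mem_nhds hβ).mono fun s hs => h a b s ha hs
    refine hm.hasDerivAt_eq_zero ?_
    have l : ∀ c : ℝ, 0 < c → HasDerivAt (fun s => log (1 + s * c)) (1 * c / (1 + β * c)) β :=
      fun c hc => (((hasDerivAt_id β).mul_const c).const_add 1).log (by positivity)
    have e : ∀ c : ℝ, 0 < c → HasDerivAt (fun s => exp (a * log (1 + s * c) - b))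
        (exp (a * log (1 + β * c) - b) * (a * (1 * c / (1 + β * c)))) β :=
      fun c hc => (((l c hc).const_mul a).sub_const b).exp
    unfold g
    refine (((((((hasDerivAt_log hβ.ne').const_mul 3).const_add _).sub_const _).add
      ((((l 9 (by norm_num)).add (l 10 (by norm_num))).add (l 15 (by norm_num))).const_mul _))).sub
      (((e 9 (by norm_num)).add (e 10 (by norm_num))).add (e 15 (by norm_num)))).congr_deriv ?_
    rw [hx, hy, hz, hp, hq, hr]
    ring
  have hpq : p < q := by rw [hp, hq]; linarith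
  have hqr : q < r := by rw [hr, hq]; linarith
  have hxy : x < y := by
    rw [hx, hy, exp_lt_exp]
    have := mul_lt_mul_of_pos_left (log_lt_log hp0 hpq) ha
    linarith
  have hyz : y < z := by
    rw [hz, hy, exp_lt_exp]
    have := mul_lt_mul_of_pos_left (log_lt_log hq0 hqr) ha
    linarith
  obtain ⟨S, hS⟩ : ∃ S, S = p⁻¹ + q⁻¹ + r⁻¹ := ⟨_, rfl⟩
  have hS0 : 0 < S := by rw [hS]; positivity
  have e1 : β * (9 / p) = 1 - p⁻¹ := by field_simp; linarith
  have e2 : β * (10 / q) = 1 - q⁻¹ := by field_simp; linarith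
  have e3 : β * (15 / r) = 1 - r⁻¹ := by field_simp; linarith
  have hz' : z = 3 - x - y := by linarith
  have f3 : S = a * ((1 - x) * (p⁻¹ - r⁻¹) + (1 - y) * (q⁻¹ - r⁻¹)) := by
    have hb : β * β⁻¹ = 1 := mul_inv_cancel₀ hβ.ne'
    rw [hS]
    rw [hz'] at d3
    linear_combination β * d3 - 3 * hb - (a - 1 - x * a) * e1 - (a - 1 - y * a) * e2 -
      (a - 1 - (3 - x - y) * a) * e3
  have f2 : 3 = a * ((1 - x) * (log r - log p) + (1 - y) * (log r - log q)) := by
    have hb : a * a⁻¹ = 1 := mul_inv_cancel₀ ha.ne'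
    rw [hz'] at d2
    linear_combination a * d2 - 3 * hb
  obtain ⟨B, hB⟩ : ∃ B, B = S * (log r - log p) - 3 * (p⁻¹ - r⁻¹) := ⟨_, rfl⟩
  obtain ⟨C, hC⟩ : ∃ B, B = S * (log r - log q) - 3 * (q⁻¹ - r⁻¹) := ⟨_, rfl⟩
  have key : a * ((1 - x) * B + (1 - y) * C) = 0 := by
    rw [hB, hC]
    linear_combination 3 * f3 - S * f2
  have key' : (1 - x) * B + (1 - y) * C = 0 := (mul_eq_zero.1 key).resolve_left ha.ne'
  have l1 := mul_le_mul_of_nonneg_left (logb p r hp0 (by linarith)) hS0.le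
  have l2 := mul_le_mul_of_nonneg_left (logb q r hq0 hqr.le) hS0.le
  have l3 := mul_le_mul_of_nonneg_left (logb p q hp0 hpq.le) hS0.le
  have g1 : S * (2 * (r - p) / (r + p)) - 3 * (p⁻¹ - r⁻¹) =
      (24 * β ^ 2 + 180 * β ^ 3) / (p * q * r * (r + p)) := by
    rw [hS]; field_simp; rw [hp, hq, hr]; ring
  have g2 : S * (2 * (r - q) / (r + q)) - 3 * (q⁻¹ - r⁻¹) =
      (35 * β ^ 2 + 375 * β ^ 3) / (p * q * r * (r + q)) := by
    rw [hS]; field_simp; rw [hp, hq, hr]; ring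
  have g3 : S * (2 * (r - p) / (r + p)) + S * (2 * (q - p) / (q + p)) -
      3 * (2 * p⁻¹ - q⁻¹ - r⁻¹) =
      (26 * β ^ 2 + 342 * β ^ 3 + 900 * β ^ 4) / (p * q * r * ((r + p) * (q + p))) := by
    rw [hS]; field_simp; rw [hp, hq, hr]; ring
  have p1 : 0 < (24 * β ^ 2 + 180 * β ^ 3) / (p * q * r * (r + p)) := by positivity
  have p2 : 0 < (35 * β ^ 2 + 375 * β ^ 3) / (p * q * r * (r + q)) := by positivity
  have p3 : 0 < (26 * β ^ 2 + 342 * β ^ 3 + 900 * β ^ 4) / (p * q * r * ((r + p) * (q + p))) := by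
    positivity
  have hB0 : 0 < B := by linarith
  have hC0 : 0 < C := by linarith
  have hBC : C < 2 * B := by linarith
  have hx1 : 0 < 1 - x := by linarith
  rcases le_total y 1 with h1 | h1
  · have := mul_pos hx1 hB0
    have := mul_nonneg (sub_nonneg.2 h1) hC0.le
    linarith
  · have h2 : 0 < 1 - x - 2 * (y - 1) := by linarith
    have := mul_pos h2 hB0
    have := mul_nonneg (sub_nonneg.2 h1) (sub_nonneg.2 hBC.le)
    linarith

theorem result : ∃ (n n₁ n₂ : ℕ) (τ η : ℝ) (t : Fin (n₁ + n₂) → ℝ),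
    0 < τ ∧ τ < η ∧ n₁ + n₂ ≤ n ∧ n₂ ≠ 0 ∧ 3 ≤ n₁ + n₂ ∧ StrictMono t ∧
    (∀ i : Fin (n₁ + n₂), if (i : ℕ) < n₁ then 0 < t i ∧ t i < τ else τ < t i ∧ t i < η) ∧
    ∀ α θ β : ℝ, 0 < α → 0 < θ → 0 < β → ∃ α' θ' β' : ℝ, 0 < α' ∧ 0 < θ' ∧ 0 < β' ∧
      ll n n₁ n₂ τ η t α θ β < ll n n₁ n₂ τ η t α' θ' β' := by
  refine ⟨3, 0, 3, 1, 20, ![10, 11, 16], one_pos, by norm_num, le_rfl, by norm_num, le_rfl,
    ?_, ?_, fun α θ β hα hθ hβ => ?_⟩
  · refine Fin.strictMono_iff_lt_succ.2 fun i => ?_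
    fin_cases i <;> simp <;> norm_num
  · intro i
    fin_cases i <;> simp <;> norm_num
  · by_contra hc
    push Not at hc
    refine no_max α (α * log θ) β hα hβ fun a b c ha hc' => ?_
    rw [← ll_eq _ _ _ ha hc', ← ll_eq _ _ _ hα hβ, mul_div_cancel_left₀ _ hα.ne', exp_log hθ]
    exact hc a _ c ha (exp_pos _) hc'

end Pool.Agent.Results.MP_1bbe3d_pr.NoMLE
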